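import Pool.Agent.L5helper13.TQ.Defs

set_option autoImplicit false

namespace Pool.Agent.L5helper13.TQ

open MvPolynomial

/-- TQ3 -/
theorem coeff_AA (k : Type) [Field k] (n d : ℕ)
    (ρ : (Fin d → kˣ) → MvPolynomial (Fin n) k) (m : ℕ) (F : MvPolynomial (Fin d ⊕ Fin n) k)
    (h : ∀ t : Fin d → kˣ, C ((∏ i, ((t i : kˣ) : k)) ^ m) * ρ t =
      aeval (Sum.elim (fun i : Fin d => (C ((t i : kˣ) : k) : MvPolynomial (Fin n) k))
        (fun l : Fin n => (X l : MvPolynomial (Fin n) k))) F) (e : Fin n →₀ ℕ) :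
    (fun t => coeff e (ρ t)) ∈ AA k d := by
  classical
  -- the characters
  let χ : ((Fin d ⊕ Fin n) →₀ ℕ) → ((Fin d → kˣ) →* k) := fun u =>
    { toFun := fun t => (((∏ i, (t i) ^ (u (Sum.inl i))) * ((∏ i, t i) ^ m)⁻¹ : kˣ) : k)
      map_one' := by simp
      map_mul' := by
        intro s t
        rw [← Units.val_mul]
        congr 1
        simp only [Pi.mul_apply, mul_pow, Finset.prod_mul_distrib, mul_inv]
        exact mul_mul_mul_comm _ _ _ _ }
  let K : ((Fin d ⊕ Fin n) →₀ ℕ) → k := fun u =>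
    coeff u F * coeff e (∏ l : Fin n, (X l : MvPolynomial (Fin n) k) ^ (u (Sum.inr l)))
  have key : (fun t => coeff e (ρ t)) = ∑ u ∈ F.support, K u • (fun t : Fin d → kˣ => χ u t) := by
    funext t
    have hu : ((∏ i, t i) ^ m : kˣ) * ((∏ i, t i) ^ m)⁻¹ = 1 := mul_inv_cancel _
    have hu' : ((((∏ i, t i) ^ m : kˣ) : k)) * ((((∏ i, t i) ^ m)⁻¹ : kˣ) : k) = 1 := by
      rw [← Units.val_mul, hu, Units.val_one]
    have hval : ((∏ i, ((t i : kˣ) : k)) ^ m) = (((∏ i, t i) ^ m : kˣ) : k) := by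
      rw [Units.val_pow_eq_pow_val, Units.coe_prod]
    have h1 := congrArg (coeff e) (h t)
    rw [coeff_C_mul, hval] at h1
    have h2 : coeff e (ρ t) = ((((∏ i, t i) ^ m)⁻¹ : kˣ) : k) * coeff e
        (aeval (Sum.elim (fun i : Fin d => (C ((t i : kˣ) : k) : MvPolynomial (Fin n) k))
        (fun l : Fin n => (X l : MvPolynomial (Fin n) k))) F) := by
      rw [← h1, ← mul_assoc, mul_comm ((((∏ i, t i) ^ m)⁻¹ : kˣ) : k), hu', one_mul]
    show coeff e (ρ t) = _
    rw [h2, aeval_def, eval₂_eq', coeff_sum, Finset.mul_sum, Finset.sum_apply]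
    refine Finset.sum_congr rfl fun u _ => ?_
    rw [Fintype.prod_sum_type]
    simp only [Sum.elim_inl, Sum.elim_inr, algebraMap_eq]
    have h3 : (∏ i : Fin d, (C ((t i : kˣ) : k) : MvPolynomial (Fin n) k) ^ (u (Sum.inl i))) =
        C (((∏ i, (t i) ^ (u (Sum.inl i)) : kˣ)) : k) := by
      rw [Units.coe_prod, map_prod]
      refine Finset.prod_congr rfl fun i _ => ?_
      rw [Units.val_pow_eq_pow_val, map_pow]
    rw [h3, coeff_C_mul, coeff_C_mul]
    show _ = K u * (((∏ i, (t i) ^ (u (Sum.inl i))) * ((∏ i, t i) ^ m)⁻¹ : kˣ) : k)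
    rw [Units.val_mul]
    show _ = (coeff u F * coeff e (∏ l : Fin n, (X l : MvPolynomial (Fin n) k) ^ (u (Sum.inr l))))
      * _
    ring
  rw [key]
  refine Submodule.sum_mem _ fun u _ => Submodule.smul_mem _ _ ?_
  exact Submodule.subset_span ⟨χ u, rfl⟩

end Pool.Agent.L5helper13.TQ
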