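import Pool.Agent.L5helper13.TQ.Defs

set_option autoImplicit false

namespace Pool.Agent.L5helper13.TQ

open MvPolynomial

theorem quad_cases {n : ℕ} (u : Fin n →₀ ℕ) (hu : u ≠ 0) (hd : (u.sum fun _ e => e) ≤ 2) :
    (∃ a, u = Finsupp.single a 1) ∨ ∃ a b, u = Finsupp.single a 1 + Finsupp.single b 1 := by
  classical
  have hd' : u.degree ≤ 2 := hd
  obtain ⟨a, ha⟩ : ∃ a, u a ≠ 0 := by
    by_contra hh
    push Not at hh
    exact hu (Finsupp.ext hh)
  have h1 : Finsupp.single a 1 ≤ u := by
    rw [Finsupp.single_le_iff]; omega
  obtain ⟨v, rfl⟩ := exists_add_of_le h1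
  rcases eq_or_ne v 0 with hv | hv
  · left; exact ⟨a, by rw [hv, add_zero]⟩
  · right
    obtain ⟨b, hb⟩ : ∃ b, v b ≠ 0 := by
      by_contra hh
      push Not at hh
      exact hv (Finsupp.ext hh)
    have h2 : Finsupp.single b 1 ≤ v := by
      rw [Finsupp.single_le_iff]; omega
    obtain ⟨w, rfl⟩ := exists_add_of_le h2
    have h3 : w.degree = 0 := by
      rw [map_add, map_add, Finsupp.degree_single, Finsupp.degree_single] at hd'
      omega
    have h4 : w = 0 := (Finsupp.degree_eq_zero_iff w).1 h3
    exact ⟨a, b, by rw [h4, add_zero]⟩

/-- TQ6 -/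
theorem quad_expand (k : Type) [Field k] [CharZero k] (n : ℕ) (p : MvPolynomial (Fin n) k)
    (hp : p.totalDegree ≤ 2) (h0 : coeff 0 p = 0) (x : Fin n → k) :
    eval x p = ∑ j, coeff (Finsupp.single j 1) p * x j +
      ∑ j, ∑ l, (coeff (Finsupp.single j 1 + Finsupp.single l 1) p *
        (if j = l then 1 else 1 / 2)) * (x j * x l) := by
  classical
  let R : MvPolynomial (Fin n) k → k := fun q =>
    ∑ j, coeff (Finsupp.single j 1) q * x j +
      ∑ j, ∑ l, (coeff (Finsupp.single j 1 + Finsupp.single l 1) q *
        (if j = l then 1 else 1 / 2)) * (x j * x l)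
  have hR0 : R 0 = 0 := by simp [R]
  have hRadd : ∀ q r, R (q + r) = R q + R r := by
    intro q r
    simp only [R, coeff_add, add_mul, Finset.sum_add_distrib]
    ring
  let RH : MvPolynomial (Fin n) k →+ k :=
    { toFun := R, map_zero' := hR0, map_add' := hRadd }
  have hmono : ∀ u ∈ p.support, eval x (monomial u (coeff u p)) = RH (monomial u (coeff u p)) := by
    intro u hu
    have hne : u ≠ 0 := by
      rintro rfl
      exact (mem_support_iff.1 hu) h0
    have hdeg : (u.sum fun _ e => e) ≤ 2 := (le_totalDegree hu).trans hp
    generalize coeff u p = c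
    show _ = R _
    rcases quad_cases u hne hdeg with ⟨a, rfl⟩ | ⟨a, b, rfl⟩
    · have h2 : ∀ j l : Fin n, (Finsupp.single a 1 : Fin n →₀ ℕ) ≠
          Finsupp.single j 1 + Finsupp.single l 1 := by
        intro j l hh
        have := congrArg Finsupp.degree hh
        rw [map_add, Finsupp.degree_single, Finsupp.degree_single, Finsupp.degree_single] at this
        omega
      have h3 : ∀ j : Fin n, ((Finsupp.single a 1 : Fin n →₀ ℕ) = Finsupp.single j 1) ↔ j = a := by
        intro j
        rw [Finsupp.single_left_inj one_ne_zero]
        exact eq_comm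
      simp only [R, coeff_monomial, h2, h3, if_false, zero_mul, Finset.sum_const_zero, add_zero,
        ite_mul, Finset.sum_ite_eq', Finset.mem_univ, if_true]
      rw [eval_monomial, Finsupp.prod_single_index (by simp), pow_one]
    · have h1 : ∀ j : Fin n, ((Finsupp.single a 1 + Finsupp.single b 1 : Fin n →₀ ℕ) ≠
          Finsupp.single j 1) := by
        intro j hh
        have := congrArg Finsupp.degree hh
        rw [map_add, Finsupp.degree_single, Finsupp.degree_single, Finsupp.degree_single] at this
        omega
      have h2 : ∀ j l : Fin n, ((Finsupp.single a 1 + Finsupp.single b 1 : Fin n →₀ ℕ) =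
          Finsupp.single j 1 + Finsupp.single l 1) ↔ (j = a ∧ l = b) ∨ (j = b ∧ l = a) := by
        intro j l
        rw [Finsupp.single_add_single_eq_single_add_single one_ne_zero one_ne_zero]
        constructor
        · rintro (⟨h, h'⟩ | ⟨_, h, h'⟩ | ⟨h, _⟩)
          · exact Or.inl ⟨h.symm, h'.symm⟩
          · exact Or.inr ⟨h'.symm, h.symm⟩
          · omega
        · rintro (⟨rfl, rfl⟩ | ⟨rfl, rfl⟩)
          · exact Or.inl ⟨rfl, rfl⟩
          · exact Or.inr (Or.inl ⟨rfl, rfl, rfl⟩)
      have hL : eval x (monomial (Finsupp.single a 1 + Finsupp.single b 1) c) =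
          c * (x a * x b) := by
        rw [eval_monomial, Finsupp.prod_add_index' (by simp) (by intro _ _ _; exact pow_add _ _ _),
          Finsupp.prod_single_index (by simp), Finsupp.prod_single_index (by simp), pow_one, pow_one]
      rw [hL]
      simp only [R, coeff_monomial, h1, if_false, zero_mul, Finset.sum_const_zero, zero_add, h2]
      rcases eq_or_ne a b with rfl | hab
      · have : ∀ j l : Fin n, ((if (j = a ∧ l = a) ∨ (j = a ∧ l = a) then c else 0) *
            (if j = l then 1 else 1 / 2)) * (x j * x l) =
            if j = a then (if l = a then c * (x a * x a) else 0) else 0 := by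
          intro j l
          by_cases hj : j = a
          · by_cases hl : l = a
            · subst hj; subst hl; simp
            · simp [hj, hl]
          · simp [hj]
        simp only [this]
        simp
      · have : ∀ j l : Fin n, ((if (j = a ∧ l = b) ∨ (j = b ∧ l = a) then c else 0) *
            (if j = l then 1 else 1 / 2)) * (x j * x l) =
            (if j = a then (if l = b then c * (x a * x b) / 2 else 0) else 0) +
            (if j = b then (if l = a then c * (x a * x b) / 2 else 0) else 0) := by
          intro j l
          by_cases hj : j = a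
          · subst hj
            by_cases hl : l = b
            · subst hl; simp [hab]; ring
            · simp [hl, hab]
          · by_cases hj' : j = b
            · subst hj'
              by_cases hl : l = a
              · subst hl; simp [hj]; ring
              · simp [hl, hj]
            · simp [hj, hj']
        simp only [this, Finset.sum_add_distrib]
        simp only [Finset.sum_ite_eq', Finset.mem_univ, if_true, Finset.sum_const_zero,
          ← Finset.sum_add_distrib]
        have h5 : ∀ j : Fin n, (∑ l : Fin n, if j = a then
            (if l = b then c * (x a * x b) / 2 else 0) else 0) =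
            if j = a then c * (x a * x b) / 2 else 0 := by
          intro j; split_ifs <;> simp
        have h6 : ∀ j : Fin n, (∑ l : Fin n, if j = b then
            (if l = a then c * (x a * x b) / 2 else 0) else 0) =
            if j = b then c * (x a * x b) / 2 else 0 := by
          intro j; split_ifs <;> simp
        simp only [Finset.sum_add_distrib, h5, h6, Finset.sum_ite_eq', Finset.mem_univ, if_true]
        ring
  have e1 : eval x p = ∑ u ∈ p.support, eval x (monomial u (coeff u p)) := by
    conv_lhs => rw [p.as_sum]
    rw [map_sum]
  have e2 : RH p = ∑ u ∈ p.support, RH (monomial u (coeff u p)) := by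
    conv_lhs => rw [p.as_sum]
    rw [map_sum]
  show eval x p = RH p
  rw [e1, e2]
  exact Finset.sum_congr rfl hmono

end Pool.Agent.L5helper13.TQ
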